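import Pool.Agent.Run7.h744.DD.All
import Pool.Agent.Run7.h744.DD.Zero

/-!
Restriction to a smaller domain of strong solutions of the Navier-Stokes equations: they are
solutions with a boundary control.
-/

set_option autoImplicit false

open MeasureTheory Set Filter Topology
open scoped InnerProductSpace ContDiff ENNReal

namespace Run7.h148.BC

open H772R2.NS.Pub

theorem exists_restr_aux {α E : Type} [MeasurableSpace α] [NormedAddCommGroup E]
    [InnerProductSpace ℝ E] (μ' μ : Measure α) (s : Set α) (h : μ = μ'.restrict s) :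
    ∃ r : Lp E 2 μ' →L[ℝ] Lp E 2 μ, (∀ u, (r u : α → E) =ᵐ[μ] u) ∧ ∀ u, ‖r u‖ ≤ ‖u‖ := by
  subst h
  refine ⟨LpToLpRestrictCLM α E ℝ μ' 2 s, fun u => LpToLpRestrictCLM_coeFn ℝ s u, fun u => ?_⟩
  exact norm_Lp_toLp_restrict_le s u

/-- the restriction of classes -/
theorem exists_restr {Ω Ω' : Set R3} (h : Ω ⊆ Ω') (E : Type) [NormedAddCommGroup E]
    [InnerProductSpace ℝ E] : ∃ r : L2 Ω' E →L[ℝ] L2 Ω E,
      (∀ u, IsClass (r u) u.fn) ∧ ∀ u, ‖r u‖ ≤ ‖u‖ :=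
  exists_restr_aux (E := E) ((volume : Measure R3).restrict Ω') ((volume : Measure R3).restrict Ω) Ω
    (Measure.restrict_restrict_of_subset h).symm


/-- `H¹` fields without divergence which vanish on `Γ`, with their gradients -/
def wall (Ω Γ : Set R3) : Set (L2 Ω R3 × L2 Ω Mat) :=
  closure {p | ∃ φ : R3 → R3, ContDiff ℝ ∞ φ ∧ HasCompactSupport φ ∧ Disjoint (tsupport φ) Γ ∧
    (∀ x, dvg φ x = 0) ∧ IsClass p.1 φ ∧ IsClass p.2 (jac φ)}

theorem class_of {Ω Ω' : Set R3} {E : Type} [NormedAddCommGroup E] (h : Ω ⊆ Ω') {v : L2 Ω E}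
    {u : L2 Ω' E} {f : R3 → E} (h1 : IsClass v u.fn) (h2 : IsClass u f) : IsClass v f := by
  have h3 : u.fn =ᵐ[volume.restrict Ω] f := ae_mono (Measure.restrict_mono_set volume h) h2
  exact Filter.EventuallyEq.trans h1 h3

theorem grad_restr {Ω Ω' Γ : Set R3} (h : Ω ⊆ Ω') (hΓ : Disjoint Ω' Γ)
    {r : L2 Ω' R3 →L[ℝ] L2 Ω R3} {s : L2 Ω' Mat →L[ℝ] L2 Ω Mat}
    (hr : ∀ u, IsClass (r u) u.fn) (hs : ∀ u, IsClass (s u) u.fn)
    {u : L2 Ω' R3} {D : L2 Ω' Mat} (hu : (u, D) ∈ H1graph Ω') : (r u, s D) ∈ wall Ω Γ := by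
  have hc : Continuous (fun p : L2 Ω' R3 × L2 Ω' Mat => (r p.1, s p.2)) :=
    (r.continuous.comp continuous_fst).prodMk (s.continuous.comp continuous_snd)
  refine map_mem_closure (f := fun p : L2 Ω' R3 × L2 Ω' Mat => (r p.1, s p.2)) (x := (u, D)) hc hu ?_
  rintro ⟨a, b⟩ ⟨φ, h1, h2, h3⟩
  exact ⟨φ, h1.smooth, h1.compact, hΓ.mono_left h1.supp, h1.divfree, class_of h (hr a) h2,
    class_of h (hs b) h3⟩

theorem h1_restr {E F : Type} [NormedAddCommGroup E] [InnerProductSpace ℝ E] [CompleteSpace E]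
    [NormedAddCommGroup F] [InnerProductSpace ℝ F] [CompleteSpace F] {T : ℝ} {g g' : ℝ → E}
    (r : E →L[ℝ] F) (h : IsH1 T g g') : IsH1 T (fun t => r (g t)) (fun t => r (g' t)) where
  memLp := r.comp_memLp' h.memLp
  prim a b ha hab hb := by
    have h1 := h.prim a b ha hab hb
    have hm : MemLp g' 2 (volume.restrict (Ioc a b)) :=
      h.memLp.mono_measure (Measure.restrict_mono_set volume (Ioc_subset_Ioc ha hb))
    have hi : IntervalIntegrable g' volume a b := by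
      rw [intervalIntegrable_iff_integrableOn_Ioc_of_le hab]
      exact hm.integrable (by norm_num)
    rw [← map_sub, h1, ← ContinuousLinearMap.intervalIntegral_comp_comm r hi]

theorem int_restr {Ω Ω' : Set R3} (hΩ' : MeasurableSet Ω') (h : Ω ⊆ Ω')
    {f g : R3 → ℝ} (h1 : ∀ᵐ x ∂(volume.restrict Ω), f x = g x) (h2 : ∀ x, x ∉ Ω → g x = 0) :
    ∫ x in Ω, f x = ∫ x in Ω', g x := by
  rw [integral_congr_ae h1]
  exact (setIntegral_eq_of_subset_of_forall_sdiff_eq_zero hΩ' h fun x hx => h2 x hx.2).symm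


theorem fderiv_out {φ : R3 → R3} {x : R3} (hx : x ∉ tsupport φ) : fderiv ℝ φ x = 0 := by
  have h1 : φ =ᶠ[𝓝 x] fun _ => 0 := by
    have := notMem_tsupport_iff_eventuallyEq.1 hx
    exact this
  rw [h1.fderiv_eq]
  simp

theorem jac_out {φ : R3 → R3} {x : R3} (hx : x ∉ tsupport φ) : jac φ x = 0 := by
  unfold jac
  rw [fderiv_out hx]
  have : (fun p : Fin 3 × Fin 3 => ⟪(e p.1 : R3), (0 : R3 →L[ℝ] R3) (e p.2)⟫_ℝ) = 0 := by
    funext p
    simp
  rw [this]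
  rfl

theorem eqn_restr {Ω Ω' : Set R3} (hΩ' : MeasurableSet Ω') (h : Ω ⊆ Ω')
    {r : L2 Ω' R3 →L[ℝ] L2 Ω R3} {s : L2 Ω' Mat →L[ℝ] L2 Ω Mat}
    (hr : ∀ u, IsClass (r u) u.fn) (hs : ∀ u, IsClass (s u) u.fn) {φ : R3 → R3} (hφ : IsTest Ω φ) :
    (∀ u : L2 Ω' R3, (∫ x in Ω, ⟪(r u).fn x, φ x⟫_ℝ) = ∫ x in Ω', ⟪u.fn x, φ x⟫_ℝ) ∧
    ∀ (ν : ℝ) (u : L2 Ω' R3) (z : L2 Ω' Mat),
      rhs ν (r u) (s z) (0 : L2 Ω Mat) φ = rhs ν u z (0 : L2 Ω' Mat) φ := by
  have hout : ∀ x, x ∉ Ω → x ∉ tsupport φ := fun x hx hx' => hx (hφ.supp hx')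
  have hz : ∀ z : L2 Ω' Mat, (∫ x in Ω, ⟪(s z).fn x, jac φ x⟫_ℝ) = ∫ x in Ω', ⟪z.fn x, jac φ x⟫_ℝ := by
    intro z
    refine int_restr hΩ' h ?_ ?_
    · filter_upwards [hs z] with x hx
      rw [hx]
    · intro x hx
      rw [jac_out (hout x hx), inner_zero_right]
  refine ⟨fun u => ?_, fun ν u z => ?_⟩
  · refine int_restr hΩ' h ?_ ?_
    · filter_upwards [hr u] with x hx
      rw [hx]
    · intro x hx
      rw [image_eq_zero_of_notMem_tsupport (hout x hx), inner_zero_right]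
  · have h1 : (∫ x in Ω, ⟪(r u).fn x, fderiv ℝ φ x ((r u).fn x)⟫_ℝ)
        = ∫ x in Ω', ⟪u.fn x, fderiv ℝ φ x (u.fn x)⟫_ℝ := by
      refine int_restr hΩ' h ?_ ?_
      · filter_upwards [hr u] with x hx
        rw [hx]
      · intro x hx
        rw [fderiv_out (hout x hx)]
        simp
    have h2 := hz 0
    rw [map_zero] at h2
    unfold rhs
    rw [h1, hz z, h2]


theorem complete_v (Ω : Set R3) : CompleteSpace (L2 Ω R3) :=
  (inferInstance : CompleteSpace (Lp (EuclideanSpace ℝ (Fin 3)) 2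
    ((volume : Measure (EuclideanSpace ℝ (Fin 3))).restrict Ω)))

theorem complete_m (Ω : Set R3) : CompleteSpace (L2 Ω Mat) :=
  (inferInstance : CompleteSpace (Lp (EuclideanSpace ℝ (Fin 3 × Fin 3)) 2
    ((volume : Measure (EuclideanSpace ℝ (Fin 3))).restrict Ω)))

theorem meas_open {Ω : Set R3} (h : IsOpen Ω) : MeasurableSet Ω :=
  IsOpen.measurableSet (α := EuclideanSpace ℝ (Fin 3)) h


theorem class_unique {Ω : Set R3} {E : Type} [NormedAddCommGroup E] {v w : L2 Ω E} {f : R3 → E}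
    (h1 : IsClass v f) (h2 : IsClass w f) : v = w :=
  Lp.ext (μ := (volume : Measure R3).restrict Ω) (Filter.EventuallyEq.trans h1 h2.symm)

end Run7.h148.BC
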